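import Pool.Agent.Q8.GF.Fin9
import Pool.Agent.TH130.CI.Cz

/-!
The complete intersections `x_i ^ {d_i} ℓ_i(A)`: all maps `L ^ k : B_i → B_{i+k}` from degree at
most one, or to degree at least `σ - 1`, have maximal rank, for all `A` with nonzero principal
minors, for quadrics (all `d_i = 1`) in any number of variables and for all `d` in at most five
variables.
-/

open MvPolynomial

namespace Pool.Agent.Results.MP_adb389_ag.FromDegreeOne

open H503R3.QCI (Reg)
open Pool.Agent.Q8.GC

variable {K : Type*} [Field K] {n : ℕ}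

lemma cmap_add' {A : Type*} [CommRing A] [Algebra K A] (ψ : A →ₗ[K] K)
    (f g : MvPolynomial (Fin n) A) : cmap ψ (f + g) = cmap ψ f + cmap ψ g := by
  ext s
  rw [coeff_add, coeff_cmap, coeff_cmap, coeff_cmap, coeff_add, map_add]

lemma cmap_map [Infinite K] {A : Type*} [CommRing A] [Algebra K A] (ψ : A →ₗ[K] K)
    (f : MvPolynomial (Fin n) A) (g : MvPolynomial (Fin n) K) :
    cmap ψ (f * map (algebraMap K A) g) = cmap ψ f * g := by
  apply MvPolynomial.funext
  intro q
  rw [map_mul, eval_cmap, eval_cmap, map_mul, ev_map, mul_comm, ← Algebra.smul_def, map_smul,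
    smul_eq_mul, mul_comm]

/-- an ideal is the contraction of its extension along an extension of fields -/
lemma contract [Infinite K] {F : Type*} [Field F] [Algebra K F]
    (S : Set (MvPolynomial (Fin n) K)) {w : MvPolynomial (Fin n) K}
    (h : map (algebraMap K F) w ∈ Ideal.span (map (algebraMap K F) '' S)) : w ∈ Ideal.span S := by
  obtain ⟨ψ, hψ⟩ : ∃ ψ : F →ₗ[K] K, ψ 1 = 1 := by
    obtain ⟨ψ, hψ⟩ := LinearMap.exists_leftInverse_of_injective (Algebra.linearMap K F)
      (LinearMap.ker_eq_bot.mpr (algebraMap K F).injective)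
    refine ⟨ψ, ?_⟩
    have h1 := LinearMap.congr_fun hψ 1
    rw [LinearMap.comp_apply, Algebra.linearMap_apply, map_one] at h1
    exact h1
  have key : ∀ u ∈ Ideal.span (map (algebraMap K F) '' S), ∀ c : MvPolynomial (Fin n) F,
      cmap ψ (c * u) ∈ Ideal.span S := by
    intro u hu
    refine Submodule.span_induction ?_ ?_ ?_ ?_ hu
    · rintro _ ⟨s, hs, rfl⟩ c
      rw [cmap_map]
      exact Ideal.mul_mem_left _ _ (Ideal.subset_span hs)
    · intro c
      rw [mul_zero]
      have : cmap ψ (0 : MvPolynomial (Fin n) F) = 0 := by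
        ext s
        rw [coeff_cmap, coeff_zero, coeff_zero, map_zero]
      rw [this]
      exact Ideal.zero_mem _
    · intro x y _ _ hx hy c
      rw [mul_add, cmap_add']
      exact Ideal.add_mem _ (hx c) (hy c)
    · intro a x _ hx c
      rw [smul_eq_mul, ← mul_assoc]
      exact hx (c * a)
  have h1 := key _ h 1
  rw [cmap_map] at h1
  have h2 : cmap ψ (1 : MvPolynomial (Fin n) F) = 1 := by
    classical
    ext s
    rw [coeff_cmap, coeff_one, coeff_one]
    split_ifs
    · exact hψ
    · rw [map_zero]
  rwa [h2, one_mul] at h1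

lemma reg_descend [Infinite K] {F : Type*} [Field F] [Algebra K F] {k : ℕ}
    {f : Fin k → MvPolynomial (Fin n) K} (h : Reg fun i => map (algebraMap K F) (f i)) : Reg f := by
  intro i v hv
  apply contract (F := F)
  have e : ∀ T : Set (Fin k), map (algebraMap K F) '' (f '' T) =
      (fun i => map (algebraMap K F) (f i)) '' T := by
    intro T
    rw [Set.image_image]
  rw [e]
  apply h i
  rw [← map_mul, ← e]
  have h1 := Ideal.mem_map_of_mem (map (algebraMap K F)) hv
  rwa [Ideal.map_span] at h1

/-- The generators form a regular sequence. -/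
lemma reg_gen {K : Type} [Field K] [CharZero K] {n : ℕ} (A : Matrix (Fin n) (Fin n) K) (d : Fin n → ℕ)
    (hA : ∀ S : Finset (Fin n), (A.submatrix (fun i : S => (i : Fin n)) fun j : S => (j : Fin n)).det ≠ 0) :
    Reg fun i => (X i ^ d i * ∑ j, C (A i j) * X j : MvPolynomial (Fin n) K) := by
  classical
  apply reg_descend (F := AlgebraicClosure K)
  have e : ∀ i, map (algebraMap K (AlgebraicClosure K))
      (X i ^ d i * ∑ j, C (A i j) * X j : MvPolynomial (Fin n) K) =
      X i ^ d i * ∑ j, C (algebraMap K (AlgebraicClosure K) (A i j)) * X j := by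
    intro i
    simp only [map_mul, map_pow, map_sum, map_X, map_C]
  simp only [e]
  apply TH130CI.reg_of_common_zero _ (fun i => d i + 1) (fun i => Nat.succ_pos _)
  · intro i
    apply IsHomogeneous.mul
    · have := (isHomogeneous_X (AlgebraicClosure K) i).pow (d i)
      rwa [one_mul] at this
    · apply IsHomogeneous.sum
      intro j _
      have h1 := (isHomogeneous_C (Fin n) (algebraMap K (AlgebraicClosure K) (A i j))).mul
        (isHomogeneous_X (AlgebraicClosure K) j)
      rwa [zero_add] at h1
  · intro x hx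
    by_contra hne
    set S : Finset (Fin n) := Finset.univ.filter fun i => x i ≠ 0 with hS
    apply hA S
    have h1 : ((A.submatrix (fun i : S => (i : Fin n)) fun j : S => (j : Fin n)).map
        (algebraMap K (AlgebraicClosure K))).det = 0 := by
      rw [← Matrix.exists_mulVec_eq_zero_iff]
      refine ⟨fun j : S => x j, ?_, ?_⟩
      · intro h0
        apply hne
        funext i
        by_contra hi
        exact hi (congrFun h0 ⟨i, Finset.mem_filter.mpr ⟨Finset.mem_univ _, hi⟩⟩)
      · funext i
        have h2 := hx i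
        simp only [map_mul, map_pow, map_sum, eval_X, eval_C] at h2
        have h3 := (mul_eq_zero.mp h2).resolve_left
          (pow_ne_zero _ (Finset.mem_filter.mp i.2).2)
        rw [Matrix.mulVec, dotProduct, Pi.zero_apply, ← h3]
        have h4 : ∑ j, algebraMap K (AlgebraicClosure K) (A i j) * x j =
            ∑ j ∈ S, algebraMap K (AlgebraicClosure K) (A i j) * x j := by
          symm
          apply Finset.sum_subset (Finset.subset_univ _)
          intro j _ hj
          have : x j = 0 := by
            by_contra hxj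
            exact hj (Finset.mem_filter.mpr ⟨Finset.mem_univ _, hxj⟩)
          rw [this, mul_zero]
        rw [h4]
        exact Finset.sum_coe_sort S fun j => algebraMap K (AlgebraicClosure K) (A i j) * x j
    have h2 := (RingHom.map_det (algebraMap K (AlgebraicClosure K))
      (A.submatrix (fun i : S => (i : Fin n)) fun j : S => (j : Fin n)))
    rw [RingHom.mapMatrix_apply, h1] at h2
    exact (map_eq_zero _).mp h2

/-- Let `K` be a field of characteristic zero, `A` a square matrix of size `n + 2` with nonzero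
principal minors, `1 ≤ d_0 ≤ … ≤ d_{n+1}` (this is no restriction, by a simultaneous permutation of
the rows and columns of `A`), `I = (x_i ^ {d_i} ∑_j a_ij x_j : 0 ≤ i ≤ n + 1)`, `B = R / I` and
`σ = ∑ d_j`. Assume `n ≤ 3` (at most five variables), or that for each `1 ≤ k ≤ n - 1` one of the
following holds:

* `k d_n ≤ d_0 + … + d_k` (for all `k`, if all `d_i` are equal);
* `k = n - 1` and `n d_{n-1} + d_1 ≤ σ`.

Then there is a linear form `L` such that all maps `L ^ k : B_i → B_{i+k}` with `i ≤ 1` or
`i + k ≥ σ - 1` are injective or surjective. -/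
theorem result (K : Type) [Field K] [CharZero K] (n : ℕ)
    (A : Matrix (Fin (n + 2)) (Fin (n + 2)) K)
    (hA : ∀ S : Finset (Fin (n + 2)),
      (A.submatrix (fun i : S => (i : Fin (n + 2))) fun j : S => (j : Fin (n + 2))).det ≠ 0)
    (d : Fin (n + 2) → ℕ) (hd : ∀ i, 1 ≤ d i) (hmono : Monotone d)
    (h : ∀ k (_ : 1 ≤ k) (_ : k + 1 ≤ n),
      k * d (Fin.last n).castSucc ≤
        ∑ i ∈ Finset.univ.filter (fun i : Fin (n + 2) => (i : ℕ) ≤ k), d i ∨
      (k + 1 = n ∧ n * d ⟨k, by omega⟩ + d 1 ≤ ∑ j, d j) ∨ n ≤ 3) :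
    ∃ L : MvPolynomial (Fin (n + 2)) K, L.IsHomogeneous 1 ∧ ∀ i k : ℕ,
      (i ≤ 1 ∨ ∑ j, d j ≤ i + k + 1) →
        (∀ g ∈ homogeneousSubmodule (Fin (n + 2)) K i,
          L ^ k * g ∈ Ideal.span (Set.range fun i => X i ^ d i * ∑ j, C (A i j) * X j) →
            g ∈ Ideal.span (Set.range fun i => X i ^ d i * ∑ j, C (A i j) * X j)) ∨
        (∀ h ∈ homogeneousSubmodule (Fin (n + 2)) K (i + k),
          ∃ g ∈ homogeneousSubmodule (Fin (n + 2)) K i,
            h - L ^ k * g ∈ Ideal.span (Set.range fun i => X i ^ d i * ∑ j, C (A i j) * X j)) := by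
  have hhom : ∀ i, (X i ^ d i * ∑ j, C (A i j) * X j :
      MvPolynomial (Fin (n + 2)) K).IsHomogeneous (d i + 1) := by
    intro i
    apply IsHomogeneous.mul
    · have := (isHomogeneous_X K i).pow (d i)
      rwa [one_mul] at this
    · apply IsHomogeneous.sum
      intro j _
      have h1 := (isHomogeneous_C (Fin (n + 2)) (A i j)).mul (isHomogeneous_X K j)
      rwa [zero_add] at h1
  have h1 := Pool.Agent.Q8.GF.main9 (d := fun i => d i + 1) hhom (fun i => Nat.succ_le_succ (hd i))
    (reg_gen A d hA) (fun i j hij => Nat.succ_le_succ (hmono hij)) (fun k hk1 hk2 => by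
      simp only [Nat.add_sub_cancel]
      rcases h k hk1 hk2 with h1 | h1 | h1
      · exact Or.inl h1
      · exact Or.inr (Or.inr (Or.inl h1))
      · exact Or.inr (Or.inr (Or.inr h1)))
  simp only [Nat.add_sub_cancel] at h1
  exact h1

end Pool.Agent.Results.MP_adb389_ag.FromDegreeOne
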